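import Pool.Agent.L7lead.LA.Stm

/-!
# Project LA: part FIX
-/

set_option autoImplicit false

open MeasureTheory

namespace Pool.Agent.L7h15.LA

open Pool.Agent.L7lead.LA

section

variable {κ l : ℝ} {Φ : E → ℝ} (hl : 0 < l) (hΦm : Measurable Φ) (hΦ0 : ∀ x, 0 ≤ Φ x)
  (hΦi : Integrable (fun z => Φ z * Real.exp (κ * ‖z‖))) {W : E → ℝ} {N : Set E}
  (hW0 : ∀ x, 0 < W x) (hW : ∀ x y, W y ≤ W x * Real.exp (κ * ‖x - y‖)) (hN : MeasurableSet N)
  (hthin : ∀ x, (l + 1) * ∫ y in N, Φ (x - y) * Real.exp (κ * ‖x - y‖) ≤ 1 / 2)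

include hl hΦm hΦ0 hΦi hW0 hW hN hthin

/-- the basic estimate -/
lemma key {g : E → ℝ} {c : ℝ} (hg : Measurable g) (hc : 0 ≤ c) (hb : ∀ x, |g x| ≤ c * W x)
    (hz : ∀ x, x ∉ N → g x = 0) (x : E) :
    Integrable (fun y => Φ (x - y) * g y) ∧ (l + 1) * (∫ y, ‖Φ (x - y) * g y‖) ≤ c * W x / 2 ∧
      (l + 1) * |∫ y, Φ (x - y) * g y| ≤ c * W x / 2 := by
  have h1 : Integrable (fun y => Φ (x - y) * Real.exp (κ * ‖x - y‖)) := hΦi.comp_sub_left x
  have h2 : Integrable (fun y => c * W x * (N.indicator (fun y => Φ (x - y) * Real.exp (κ * ‖x - y‖)) y)) :=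
    (h1.indicator hN).const_mul _
  have h3 : ∀ y, ‖Φ (x - y) * g y‖ ≤ c * W x * (N.indicator (fun y => Φ (x - y) * Real.exp (κ * ‖x - y‖)) y) := by
    intro y
    rw [norm_mul, Real.norm_of_nonneg (hΦ0 _), Real.norm_eq_abs]
    by_cases hy : y ∈ N
    · rw [Set.indicator_of_mem hy]
      have h4 : |g y| ≤ c * (W x * Real.exp (κ * ‖x - y‖)) :=
        (hb y).trans (mul_le_mul_of_nonneg_left (hW x y) hc)
      calc Φ (x - y) * |g y| ≤ Φ (x - y) * (c * (W x * Real.exp (κ * ‖x - y‖))) :=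
            mul_le_mul_of_nonneg_left h4 (hΦ0 _)
        _ = _ := by ring
    · rw [hz y hy, abs_zero, mul_zero, Set.indicator_of_notMem hy, mul_zero]
  have hm : Measurable (fun y => Φ (x - y) * g y) := (hΦm.comp (measurable_const.sub measurable_id)).mul hg
  have hi : Integrable (fun y => Φ (x - y) * g y) := h2.mono' hm.aestronglyMeasurable (Filter.Eventually.of_forall h3)
  have h5 : ∫ y, ‖Φ (x - y) * g y‖ ≤ c * W x * ∫ y in N, Φ (x - y) * Real.exp (κ * ‖x - y‖) := by
    rw [← integral_indicator hN, ← integral_const_mul]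
    exact integral_mono hi.norm h2 h3
  have h6 : (l + 1) * (∫ y, ‖Φ (x - y) * g y‖) ≤ c * W x / 2 := by
    have h7 := hthin x
    have h8 : 0 ≤ c * W x := mul_nonneg hc (hW0 x).le
    calc (l + 1) * (∫ y, ‖Φ (x - y) * g y‖)
        ≤ (l + 1) * (c * W x * ∫ y in N, Φ (x - y) * Real.exp (κ * ‖x - y‖)) :=
          mul_le_mul_of_nonneg_left h5 (by linarith)
      _ = c * W x * ((l + 1) * ∫ y in N, Φ (x - y) * Real.exp (κ * ‖x - y‖)) := by ring
      _ ≤ c * W x * (1 / 2) := mul_le_mul_of_nonneg_left h7 h8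
      _ = c * W x / 2 := by ring
  have h9 : ‖∫ y, Φ (x - y) * g y‖ ≤ ∫ y, ‖Φ (x - y) * g y‖ := norm_integral_le_integral_norm _
  exact ⟨hi, h6, le_trans (mul_le_mul_of_nonneg_left h9 (by linarith)) h6⟩

end

/-- the operator `S ↦ 1_N (l+1) Φ∗S` -/
noncomputable def op (l : ℝ) (Φ : E → ℝ) (N : Set E) (g : E → ℝ) : E → ℝ :=
  N.indicator (fun x => (l + 1) * ∫ y, Φ (x - y) * g y)

lemma op_meas {l : ℝ} {Φ : E → ℝ} {N : Set E} (hΦm : Measurable Φ) (hN : MeasurableSet N) {g : E → ℝ}
    (hg : Measurable g) : Measurable (op l Φ N g) := by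
  have h1 : Measurable (fun p : E × E => Φ (p.1 - p.2) * g p.2) :=
    (hΦm.comp (measurable_fst.sub measurable_snd)).mul (hg.comp measurable_snd)
  have h2 : Measurable (fun x => ∫ y, Φ (x - y) * g y) := h1.stronglyMeasurable.integral_prod_right.measurable
  exact (h2.const_mul _).indicator hN

/-- **FIX** -/
theorem t_FIX : S_FIX := by
  intro κ l Φ hl hΦm hΦ0 hΦi hκ W f N ε hWm hW0 hW hN hthin hfm hε hf
  set D : ℕ → E → ℝ := fun n => (op l Φ N)^[n] (N.indicator f) with hD
  have hD0 : D 0 = N.indicator f := rfl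
  have hDs : ∀ n, D (n + 1) = op l Φ N (D n) := fun n => Function.iterate_succ_apply' _ _ _
  have hDm : ∀ n, Measurable (D n) := by
    intro n
    induction n with
    | zero => rw [hD0]; exact hfm.indicator hN
    | succ n ih => rw [hDs]; exact op_meas hΦm hN ih
  have hDz : ∀ n x, x ∉ N → D n x = 0 := by
    intro n x hx
    cases n with
    | zero => rw [hD0, Set.indicator_of_notMem hx]
    | succ n => rw [hDs]; exact Set.indicator_of_notMem hx _
  have hDb : ∀ n x, |D n x| ≤ ε * (1 / 2) ^ n * W x := by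
    intro n
    induction n with
    | zero =>
      intro x
      rw [hD0, pow_zero, mul_one]
      by_cases hx : x ∈ N
      · rw [Set.indicator_of_mem hx]
        exact hf x
      · rw [Set.indicator_of_notMem hx, abs_zero]
        exact mul_nonneg hε (hW0 x).le
    | succ n ih =>
      intro x
      rw [hDs]
      have h1 := (key hl hΦm hΦ0 hΦi hW0 hW hN hthin (hDm n) (by positivity) ih (hDz n) x).2.2
      unfold op
      by_cases hx : x ∈ N
      · rw [Set.indicator_of_mem hx, abs_mul, abs_of_pos (by linarith : (0 : ℝ) < l + 1)]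
        refine h1.trans (le_of_eq ?_)
        rw [pow_succ]
        ring
      · rw [Set.indicator_of_notMem hx, abs_zero]
        have := (hW0 x).le
        positivity
  have hgeo : ∀ x, HasSum (fun n : ℕ => ε * (1 / 2) ^ n * W x) (2 * ε * W x) := by
    intro x
    have h1 := (hasSum_geometric_two).mul_left (ε * W x)
    have e1 : (fun n : ℕ => ε * (1 / 2 : ℝ) ^ n * W x) = fun n : ℕ => ε * W x * (1 / 2 : ℝ) ^ n := by
      funext n; ring
    rw [e1, show 2 * ε * W x = ε * W x * 2 by ring]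
    exact h1
  have hsum : ∀ x, Summable (fun n => D n x) := fun x =>
    Summable.of_norm_bounded (hgeo x).summable fun n => by rw [Real.norm_eq_abs]; exact hDb n x
  set S : E → ℝ := fun x => ∑' n, D n x with hS
  have hSm : Measurable S := by
    refine measurable_of_tendsto_metrizable (f := fun n x => ∑ i ∈ Finset.range n, D i x) (fun n => ?_) ?_
    · exact Finset.measurable_fun_sum _ fun i _ => hDm i
    · rw [tendsto_pi_nhds]
      exact fun x => (hsum x).hasSum.tendsto_sum_nat
  have hSz : ∀ x, x ∉ N → S x = 0 := by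
    intro x hx
    show ∑' n, D n x = 0
    rw [tsum_congr fun n => hDz n x hx, tsum_zero]
  have hSb : ∀ x, |S x| ≤ 2 * ε * W x := by
    intro x
    rw [← Real.norm_eq_abs]
    exact tsum_of_norm_bounded (hgeo x) fun n => by rw [Real.norm_eq_abs]; exact hDb n x
  have hT : ∀ x, HasSum (fun n => ∫ y, Φ (x - y) * D n y) (∫ y, Φ (x - y) * S y) := by
    intro x
    have h1 : ∀ n, Integrable (fun y => Φ (x - y) * D n y) := fun n =>
      (key hl hΦm hΦ0 hΦi hW0 hW hN hthin (hDm n) (by positivity) (hDb n) (hDz n) x).1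
    have h2 : Summable fun n => ∫ y, ‖Φ (x - y) * D n y‖ := by
      refine Summable.of_nonneg_of_le (fun n => integral_nonneg fun y => norm_nonneg _) (fun n => ?_)
        (((hgeo x).summable.div_const 2).div_const (l + 1))
      have h3 := (key hl hΦm hΦ0 hΦi hW0 hW hN hthin (hDm n) (by positivity) (hDb n) (hDz n) x).2.1
      rw [le_div_iff₀ (by linarith), mul_comm]
      exact h3
    have h4 := hasSum_integral_of_summable_integral_norm h1 h2
    have h5 : (fun y => ∑' n, Φ (x - y) * D n y) = fun y => Φ (x - y) * S y := by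
      funext y
      exact tsum_mul_left
    rwa [h5] at h4
  refine ⟨S, hSm, hSz, fun x hx => ?_, hSb, fun x => ?_⟩
  · have h1 : S x = D 0 x + ∑' n, D (n + 1) x := (hsum x).tsum_eq_zero_add
    rw [h1, hD0, Set.indicator_of_mem hx]
    congr 1
    have h2 : ∀ n, D (n + 1) x = (l + 1) * ∫ y, Φ (x - y) * D n y := by
      intro n
      rw [hDs]
      exact Set.indicator_of_mem hx _
    rw [tsum_congr h2, tsum_mul_left, (hT x).tsum_eq]
  · have h1 := (key hl hΦm hΦ0 hΦi hW0 hW hN hthin hSm (by positivity) hSb hSz x).2.2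
    refine h1.trans (le_of_eq ?_)
    ring

end Pool.Agent.L7h15.LA
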