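import Pool.Agent.L7lead.LA.Stm

/-!
# Project LA: part VWK
-/

set_option autoImplicit false

open MeasureTheory

namespace Pool.Agent.L7h15.LA

open Pool.Agent.L7lead.LA

lemma lap_cont {φ : E → ℝ} (hφ : ContDiff ℝ 2 φ) : Continuous (Lap φ) := by
  unfold Lap
  refine continuous_finsetSum _ fun i _ => ?_
  have h1 : Continuous (iteratedFDeriv ℝ 2 φ) := hφ.continuous_iteratedFDeriv le_rfl
  fun_prop

lemma lap_supp {φ : E → ℝ} (hc : HasCompactSupport φ) : HasCompactSupport (Lap φ) := by
  have h1 : HasCompactSupport (iteratedFDeriv ℝ 2 φ) := hc.iteratedFDeriv 2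
  refine h1.mono fun x hx => ?_
  rw [Function.mem_support] at hx ⊢
  intro h0
  apply hx
  unfold Lap
  rw [h0]
  simp

lemma ker_int {κ l : ℝ} {Φ : E → ℝ} (hκ : 0 ≤ κ) (h : IsKer κ l Φ) : Integrable Φ := by
  refine h.int.mono' h.meas.aestronglyMeasurable (Filter.Eventually.of_forall fun z => ?_)
  rw [Real.norm_of_nonneg (h.nonneg z)]
  have h1 : 1 ≤ Real.exp (κ * ‖z‖) := Real.one_le_exp (mul_nonneg hκ (norm_nonneg z))
  exact le_mul_of_one_le_right (h.nonneg z) h1

lemma prod_int {Φ S g : E → ℝ} (hΦ : Integrable Φ) (hS : Measurable S) {b : ℝ} (hb : ∀ x, |S x| ≤ b)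
    (hg : Integrable g) : Integrable (fun p : E × E => Φ (p.1 - p.2) * S p.2 * g p.1) := by
  have h1 : Integrable (fun p : E × E => g p.2 * Φ (-(p.1 - p.2))) :=
    hg.convolution_integrand (ContinuousLinearMap.mul ℝ ℝ) (hΦ.comp_neg)
  have h3 : Integrable (fun p : E × E => g p.1 * Φ (-(p.2 - p.1))) := h1.swap
  have h4 : Integrable (fun p : E × E => S p.2 * (g p.1 * Φ (-(p.2 - p.1)))) := by
    refine h3.bdd_mul (c := b) (hS.comp measurable_snd).aestronglyMeasurable
      (Filter.Eventually.of_forall fun p => ?_)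
    rw [Real.norm_eq_abs]
    exact hb _
  refine h4.congr (Filter.Eventually.of_forall fun p => ?_)
  simp only [neg_sub]
  ring

/-- **VWK** -/
theorem t_VWK : S_VWK := by
  intro κ l Φ hκ hK S b hS hb
  have hΦ := ker_int hκ hK
  have hm : Measurable (fun x => ∫ y, Φ (x - y) * S y) := by
    have h1 : Measurable (fun p : E × E => Φ (p.1 - p.2) * S p.2) :=
      (hK.meas.comp (measurable_fst.sub measurable_snd)).mul (hS.comp measurable_snd)
    exact h1.stronglyMeasurable.integral_prod_right.measurable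
  refine ⟨hm, fun φ hφ hc => ?_⟩
  have hφi : Integrable φ := hφ.continuous.integrable_of_hasCompactSupport hc
  have hLi : Integrable (Lap φ) := (lap_cont hφ).integrable_of_hasCompactSupport (lap_supp hc)
  have hI1 := prod_int hΦ hS hb hLi
  have hI2 := prod_int hΦ hS hb hφi
  have e0 : ∀ g : E → ℝ, Integrable g → ∫ x, (∫ y, Φ (x - y) * S y) * g x = ∫ y, S y * ∫ x, Φ (x - y) * g x := by
    intro g hg
    have hI := prod_int hΦ hS hb hg
    have h1 : ∫ x, (∫ y, Φ (x - y) * S y) * g x = ∫ x, ∫ y, Φ (x - y) * S y * g x :=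
      integral_congr_ae (Filter.Eventually.of_forall fun x => (integral_mul_const (g x) _).symm)
    rw [h1, integral_integral_swap hI]
    refine integral_congr_ae (Filter.Eventually.of_forall fun y => ?_)
    show ∫ x, Φ (x - y) * S y * g x = S y * ∫ x, Φ (x - y) * g x
    rw [← integral_const_mul]
    refine integral_congr_ae (Filter.Eventually.of_forall fun x => ?_)
    ring
  rw [e0 _ hLi]
  have hSφ : Integrable (fun x => S x * φ x) := by
    refine hφi.bdd_mul (c := b) hS.aestronglyMeasurable (Filter.Eventually.of_forall fun p => ?_)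
    rw [Real.norm_eq_abs]
    exact hb _
  have hTφ : Integrable (fun x => (∫ y, Φ (x - y) * S y) * φ x) := by
    have h2 := hI2.integral_prod_left
    refine h2.congr (Filter.Eventually.of_forall fun x => ?_)
    exact integral_mul_const (φ x) _
  have e1 : ∀ y, S y * ∫ x, Φ (x - y) * Lap φ x = l * (S y * ∫ x, Φ (x - y) * φ x) - S y * φ y := by
    intro y
    rw [hK.weak φ hφ hc y]
    ring
  have hSS : Integrable (fun y => S y * ∫ x, Φ (x - y) * φ x) := by
    have h2 := hI2.swap.integral_prod_left
    refine h2.congr (Filter.Eventually.of_forall fun y => ?_)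
    show ∫ x, Φ (x - y) * S y * φ x = S y * ∫ x, Φ (x - y) * φ x
    rw [← integral_const_mul]
    refine integral_congr_ae (Filter.Eventually.of_forall fun x => ?_)
    ring
  rw [integral_congr_ae (Filter.Eventually.of_forall e1), integral_sub (hSS.const_mul l) hSφ,
    integral_const_mul, ← e0 _ hφi]
  have e2 : ∀ x, (l * (∫ y, Φ (x - y) * S y) - S x) * φ x = l * ((∫ y, Φ (x - y) * S y) * φ x) - S x * φ x := by
    intro x
    ring
  rw [integral_congr_ae (Filter.Eventually.of_forall e2), integral_sub (hTφ.const_mul l) hSφ, integral_const_mul]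

end Pool.Agent.L7h15.LA
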